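import Mathlib
import Pool.Agent.H2.PolarDefs
import Pool.Agent.H2.PolarProof

open Pool.Agent.H2.Polar

theorem Pool.Agent.Results.MP_8aa8ea_co.NotSelfPolar.result :
    ∃ C : Conf 10 3, C.RankTwo ∧ ∀ D : Conf 10 3, C.Iso D → ∀ (c : P2) (r : ℝ), 0 < r →
      ∀ φ : P2 ≃ᵢ P2, φ '' D.poles c r ≠ D.pts :=
  main
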